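import Pool.Agent.ASD.Stmts6
import Pool.Agent.ASD.Stmts3
import Pool.Agent.Helper49_ASD.RDA
import Pool.Agent.Helper32_AT2.FST

/-!
# Squad ASD, row INA: the block of the stabiliser of `(A, b A)`
-/

open scoped BigOperators

set_option autoImplicit false

noncomputable section

namespace Pool.Agent.PP.SD.H89

open Pool.Agent.Helper51_AWC Pool.Agent.Helper79_WRA Pool.Agent.PP Pool.Agent.PP.KF
open Pool.Agent.PP.K9 Pool.Agent.PP.K9.H97 Pool.Agent.PP.H75 Pool.Agent.PP.T3 Pool.Agent.PP.SO
open Pool.Agent.PP.SD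

attribute [local instance] Ideal.Quotient.field

section up

variable {F G : Type} [Field F] [Group G] [Finite G] {ℓ : ℕ} [Fact ℓ.Prime]

/-- A block of the centraliser of `U` which is invariant under `X ≤ N(U)` is a block of `X`. -/
theorem bx_up (hF : GoodF ℓ F) {U X : Subgroup G} (hU : IsPGroup ℓ U) (hUX : U ≤ X)
    (hCX : Subgroup.centralizer (U : Set G) ≤ X)
    (hX : X ≤ Subgroup.normalizer (U : Set G)) {β : G → F}
    (hβ : Bx (Subgroup.centralizer (U : Set G)) β) (hst : X ≤ stabF β) : Bx X β := by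
  have hs : ∀ x, x ∉ X → β x = 0 := fun x hx => hβ.supp x (fun h => hx (hCX h))
  refine ⟨hs, ⟨fun x y => hst y.2 x, ?_⟩, ?_, ?_⟩
  · rw [← mulF_res X β hs, hβ.mul]
  · intro h0
    exact hβ.ne (eq_of_res (N := X) hs (fun _ _ => rfl) h0)
  · intro f hf
    have hfe : (fun t : X => H75.ext0 X f t) = f := funext (ext0_apply X f)
    have hft : Ix X (H75.ext0 X f) := ⟨ext0_supp X f, by rw [hfe]; exact hf⟩
    have hbr := Pool.Agent.PP.T2.H32.supp_cent hF hU hUX hCX hX hft
    have hs2 : ∀ x, x ∉ Subgroup.centralizer (U : Set G) → H75.ext0 X f x = 0 := by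
      intro x hx
      rw [← hbr, H66.br_of_not_mem hx]
    have hix : Ix (Subgroup.centralizer (U : Set G)) (H75.ext0 X f) := by
      refine ⟨hs2, ?_, ?_⟩
      · intro x y
        exact hft.idem.1 ⟨x, hCX x.2⟩ ⟨y, hCX y.2⟩
      · rw [← mulF_res _ (H75.ext0 X f) hs2, hft.mul]
    have h2 : mulF (fun t : X => β t) f = fun t : X => mulF β (H75.ext0 X f) t := by
      rw [mulF_res X _ hs, hfe]
    rw [h2]
    rcases hβ.dich' hix with h | h
    · left
      rw [h]
    · right
      rw [h]
      rfl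

end up

section iso

variable {F P R : Type} [Field F] [Group P] [Group R]

theorem cen_iff (φ : P ≃* R) {V : Subgroup R} {V' : Subgroup P} (hV : ∀ a, a ∈ V' ↔ φ a ∈ V)
    (a : P) : a ∈ Subgroup.centralizer (V' : Set P) ↔ φ a ∈ Subgroup.centralizer (V : Set R) := by
  rw [Subgroup.mem_centralizer_iff, Subgroup.mem_centralizer_iff]
  constructor
  · intro h v hv
    have h1 : φ.symm v ∈ V' := (hV _).2 (by rw [φ.apply_symm_apply]; exact hv)
    have h2 := congrArg φ (h _ h1)
    rw [map_mul, map_mul, φ.apply_symm_apply] at h2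
    exact h2
  · intro h v hv
    apply φ.injective
    rw [map_mul, map_mul]
    exact h _ ((hV v).1 hv)

/-- the isomorphism of two subgroups -/
def subE (φ : P ≃* R) {C' : Subgroup P} {C : Subgroup R} (h : ∀ a, a ∈ C' ↔ φ a ∈ C) :
    C' ≃* C where
  toFun t := ⟨φ t, (h t).1 t.2⟩
  invFun t := ⟨φ.symm t, (h _).2 (by rw [φ.apply_symm_apply]; exact t.2)⟩
  left_inv t := Subtype.ext (φ.symm_apply_apply t)
  right_inv t := Subtype.ext (φ.apply_symm_apply t)
  map_mul' a b := Subtype.ext (map_mul φ (a : P) (b : P))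

theorem br_iso (φ : P ≃* R) {V : Subgroup R} {V' : Subgroup P} (hV : ∀ a, a ∈ V' ↔ φ a ∈ V)
    (e : R → F) : br V' (fun a => e (φ a)) = fun a => br V e (φ a) := by
  funext a
  by_cases ha : a ∈ Subgroup.centralizer (V' : Set P)
  · rw [H66.br_of_mem ha, H66.br_of_mem ((cen_iff φ hV a).1 ha)]
  · rw [H66.br_of_not_mem ha, H66.br_of_not_mem (fun h => ha ((cen_iff φ hV a).2 h))]

theorem bx_iso (φ : P ≃* R) {C' : Subgroup P} {C : Subgroup R} (h : ∀ a, a ∈ C' ↔ φ a ∈ C)
    {g : R → F} (hg : Bx C g) : Bx C' (fun a => g (φ a)) := by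
  refine ⟨fun x hx => hg.supp _ (fun h' => hx ((h x).2 h')), ?_⟩
  exact H20.IsBlk_equiv (subE φ h) hg.blk

theorem pg_iso {ℓ : ℕ} (φ : P ≃* R) {V : Subgroup R} {V' : Subgroup P}
    (hV : ∀ a, a ∈ V' ↔ φ a ∈ V) (h : IsPGroup ℓ V) : IsPGroup ℓ V' :=
  h.of_equiv (subE φ hV).symm

theorem gd_iso (φ : P ≃* R) {V : Subgroup R} {V' : Subgroup P}
    (hV : ∀ a, a ∈ V' ↔ φ a ∈ V) (e : R → F) : Gd (fun a => e (φ a)) V' ↔ Gd e V := by
  constructor
  · rintro ⟨x, hx, hne⟩
    exact ⟨φ x, (cen_iff φ hV x).1 hx, hne⟩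
  · rintro ⟨x, hx, hne⟩
    refine ⟨φ.symm x, (cen_iff φ hV _).2 (by rw [φ.apply_symm_apply]; exact hx), ?_⟩
    change e (φ (φ.symm x)) ≠ 0
    rw [φ.apply_symm_apply]
    exact hne

/-- transport of the local data under an isomorphism -/
theorem ld_iso {ℓ : ℕ} (φ : P ≃* R) {V : Subgroup R} {V' : Subgroup P}
    (hV : ∀ a, a ∈ V' ↔ φ a ∈ V) {e g : R → F} (h : Ld ℓ e V g) :
    Ld ℓ (fun a => e (φ a)) V' (fun a => g (φ a)) := by
  refine ⟨H20.IsBlk_equiv φ h.blk, ⟨pg_iso φ hV h.tp.pg, (gd_iso φ hV e).2 h.tp.gd, ?_⟩, ?_,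
    bx_iso φ (cen_iff φ hV) h.gam, ?_⟩
  · intro Q hQ hQe
    have h1 : ∀ a, a ∈ Q ↔ φ a ∈ Q.map (φ : P →* R) := by
      intro a
      constructor
      · intro ha
        exact ⟨a, ha, rfl⟩
      · rintro ⟨b, hb, hab⟩
        have h2 : b = a := φ.injective hab
        rwa [h2] at hb
    have h2 := h.tp.mx (Q.map (φ : P →* R)) (hQ.map _) ((gd_iso φ h1 e).1 hQe)
    rw [Nat.card_congr (subE φ h1).toEquiv, Nat.card_congr (subE φ hV).toEquiv]
    exact h2
  · intro a ha b hb
    apply φ.injective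
    rw [map_mul, map_mul]
    exact h.ab _ ((hV a).1 ha) _ ((hV b).1 hb)
  · rw [br_iso φ hV e, H20.mulF_equiv φ, h.und]

end iso

/-- INA -/
theorem ina (hat : HatStmt) (syd : SydStmt) (_lbu : LbuStmt) : InaStmt := by
  intro ℓ _ M _ hM hℓ2 V₀ G H _ _ _ _ _ _ E₀ hFq B hB A hA0 hA j hj hr
  have hF : GoodF ℓ (FF M) := H50.fld ℓ Fact.out M hM
  obtain ⟨-, hTX, hCAX, -, hVX, -⟩ := hat ℓ M hM hℓ2 V₀ G E₀ hFq B hB A hA
  rw [← hr] at hTX hCAX hVX
  have hL := hB.ld
  have hlb := hB.lb A
  obtain ⟨X, hXdef⟩ : ∃ X, X = j.range := ⟨_, rfl⟩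
  rw [← hXdef] at hTX hCAX hVX hr
  -- the isomorphism
  obtain ⟨φ, hφ⟩ : ∃ φ : H ≃* X, ∀ h, ((φ h : X) : G) = j h := by
    subst hXdef
    exact ⟨MonoidHom.ofInjective hj, fun h => rfl⟩
  have hXN : X ≤ Subgroup.normalizer ((A.map B.i : Subgroup G) : Set G) := by
    rw [hr]
    exact inf_le_left
  have hXst : X ≤ stabF (B.b A) := by
    rw [hr]
    exact inf_le_right
  have hUV : A.map B.i ≤ B.i.range := by
    rintro _ ⟨v, _, rfl⟩
    exact ⟨v, rfl⟩
  have hUp : IsPGroup ℓ (A.map B.i : Subgroup G) := hL.tp.pg.to_le hUV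
  have hCX : Subgroup.centralizer (B.i.range : Set G) ≤ X := by
    refine le_trans (Subgroup.centralizer_le ?_) hCAX
    rintro _ ⟨w, _, rfl⟩
    exact ⟨w, rfl⟩
  -- the block of `X`
  have hbX : Bx X (B.b A) := bx_up hF hUp (hUV.trans hVX) hCAX hXN hlb.blk hXst
  have hE : Ix X (br (A.map B.i : Subgroup G) B.e) := by
    refine ⟨fun x hx => H66.br_of_not_mem (fun h => hx (hCAX h)), ?_⟩
    exact (H20.brm ℓ (FF M) hF G (A.map B.i : Subgroup G) X hUp hCAX hXN).2.2 B.e hL.blk.1
  have hund : mulF (br (A.map B.i : Subgroup G) B.e) (B.b A) = B.b A := by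
    have hs : ∀ x, x ∉ B.C A → br (A.map B.i : Subgroup G) B.e x = 0 := fun x hx =>
      H66.br_of_not_mem hx
    apply eq_of_res (mulF_supp (B.C A) hs hlb.blk.supp) hlb.blk.supp
    rw [mulF_res (B.C A) _ hs]
    have h1 : (fun t : B.C A => br (A.map B.i : Subgroup G) B.e t) = fun t : B.C A => B.e t := by
      funext t
      exact H66.br_of_mem t.2
    rw [h1]
    exact hlb.und
  have hVcard : Nat.card (B.i.range.subgroupOf X) = Nat.card B.i.range :=
    Nat.card_congr (Subgroup.subgroupOfEquivOfLe hVX).toEquiv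
  have hVp : IsPGroup ℓ (B.i.range.subgroupOf X) :=
    hL.tp.pg.of_equiv (Subgroup.subgroupOfEquivOfLe hVX).symm
  have hTf : Tp ℓ (fun t : X => B.b A t) (B.i.range.subgroupOf X) := by
    refine ⟨hVp, T3.H85.gd_of_gam hVX hCX hL.gam hlb.gam, ?_⟩
    intro Q hQ hQf
    have hmul : mulF (fun t : X => br (A.map B.i : Subgroup G) B.e t) (fun t : X => B.b A t) =
        fun t : X => B.b A t := by
      rw [← mulF_res X _ hE.supp, hund]
    have h1 := gd_map (gd_of_mul hF hE.idem.1 hbX.blk.1.1 hmul hQ hQf)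
    have h1' : Gd B.e (Q.map X.subtype) := by
      obtain ⟨g, hg1, hg2⟩ := h1
      refine ⟨g, hg1, ?_⟩
      intro h0
      apply hg2
      by_cases hg : g ∈ Subgroup.centralizer ((A.map B.i : Subgroup G) : Set G)
      · rw [H66.br_of_mem hg, h0]
      · rw [H66.br_of_not_mem hg]
    have hcard : Nat.card (Q.map X.subtype) = Nat.card Q :=
      (Nat.card_congr (Q.equivMapOfInjective X.subtype X.subtype_injective).toEquiv).symm
    have h2 := hL.tp.mx _ (hQ.map X.subtype) h1'
    rw [hcard] at h2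
    rw [hVcard]
    exact h2
  have hLX : Ld ℓ (fun t : X => B.b A t) (B.i.range.subgroupOf X) (fun t : X => B.g t) :=
    T3.H85.ld_of hVX hCX hL.ab hbX.blk hL.gam hlb.gam hTf
  -- the embedding of the defect group
  let i' : V₀ →* H := (φ.symm : X →* H).comp (B.i.codRestrict X (fun v => hVX ⟨v, rfl⟩))
  have hi' : ∀ v, j (i' v) = B.i v := by
    intro v
    rw [← hφ]
    change ((φ (φ.symm (B.i.codRestrict X (fun v => hVX ⟨v, rfl⟩) v)) : X) : G) = B.i v
    rw [φ.apply_symm_apply]
    rfl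
  have hi'inj : Function.Injective i' := by
    intro v w h
    apply hB.inj
    rw [← hi', ← hi', h]
  have hVi : ∀ a, a ∈ i'.range ↔ φ a ∈ B.i.range.subgroupOf X := by
    intro a
    rw [Subgroup.mem_subgroupOf, hφ]
    constructor
    · rintro ⟨v, rfl⟩
      exact ⟨v, (hi' v).symm⟩
    · rintro ⟨v, hv⟩
      refine ⟨v, hj ?_⟩
      rw [hi', hv]
  have hVi2 : ∀ a, a ∈ i'.range ↔ j a ∈ B.i.range := by
    intro a
    rw [hVi, Subgroup.mem_subgroupOf, hφ]
  have hLH : Ld ℓ (fun h => B.b A (j h)) i'.range (fun h => B.g (j h)) := by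
    have h1 := ld_iso φ hVi hLX
    have h2 : (fun a => B.b A ((φ a : X) : G)) = fun h => B.b A (j h) := by
      funext a
      rw [hφ]
    have h3 : (fun a => B.g ((φ a : X) : G)) = fun h => B.g (j h) := by
      funext a
      rw [hφ]
    rw [h2, h3] at h1
    exact h1
  have hXr : ∀ x ∈ X, ∃ h, j h = x := by
    intro x hx
    refine ⟨φ.symm ⟨x, hx⟩, ?_⟩
    rw [← hφ, φ.apply_symm_apply]
  -- the inertial group
  have hTg : ∀ h, j h ∈ Tg B.i.range B.g ↔ h ∈ Tg i'.range (fun h => B.g (j h)) := by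
    intro h
    have h1 : h ∈ Subgroup.normalizer (i'.range : Set H) ↔
        j h ∈ Subgroup.normalizer (B.i.range : Set G) := by
      rw [Subgroup.mem_normalizer_iff, Subgroup.mem_normalizer_iff]
      constructor
      · intro hn x
        constructor
        · intro hx
          obtain ⟨a, rfl⟩ := hXr x (hVX hx)
          have h2 := (hn a).1 ((hVi2 a).2 hx)
          rw [hVi2, map_mul, map_mul, map_inv] at h2
          exact h2
        · intro hx
          obtain ⟨a, ha⟩ := hXr _ (hVX hx)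
          have h2 : x = j (h⁻¹ * a * h) := by
            rw [map_mul, map_mul, map_inv, ha]
            group
          rw [h2, ← hVi2]
          apply (hn _).2
          rw [hVi2, map_mul, map_mul, map_mul, map_mul, map_inv, ha]
          have h3 : j h * ((j h)⁻¹ * (j h * x * (j h)⁻¹) * j h) * (j h)⁻¹ =
              j h * x * (j h)⁻¹ := by group
          rw [h3]
          exact hx
      · intro hn a
        rw [hVi2, hVi2, map_mul, map_mul, map_inv]
        exact hn (j a)
    have h2 : h ∈ stabF (fun h => B.g (j h)) ↔ j h ∈ stabF B.g := by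
      constructor
      · intro hs x
        by_cases hx : x ∈ X
        · obtain ⟨a, rfl⟩ := hXr x hx
          have h3 := hs a
          change B.g (j (h * a * h⁻¹)) = B.g (j a) at h3
          rw [map_mul, map_mul, map_inv] at h3
          exact h3
        · have h4 : j h ∈ X := by
            rw [hXdef]
            exact ⟨h, rfl⟩
          rw [hL.gam.supp x (fun h' => hx (hCX h')), hL.gam.supp]
          intro h'
          apply hx
          have h3 := X.mul_mem (X.mul_mem (X.inv_mem h4) (hCX h')) h4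
          have e : (j h)⁻¹ * (j h * x * (j h)⁻¹) * j h = x := by group
          rwa [e] at h3
      · intro hs a
        change B.g (j (h * a * h⁻¹)) = B.g (j a)
        rw [map_mul, map_mul, map_inv]
        exact hs (j a)
    constructor
    · rintro ⟨ha, hb⟩
      exact ⟨h1.2 ha, h2.2 hb⟩
    · rintro ⟨ha, hb⟩
      exact ⟨h1.1 ha, h2.1 hb⟩
  have hact : ∀ t ∈ Tg i'.range (fun h => B.g (j h)), ∃ σ ∈ E₀, ∀ v, t * i' v * t⁻¹ = i' (σ v) := by
    intro t ht
    obtain ⟨σ, hσ, h1⟩ := hB.act (j t) ((hTg t).2 ht)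
    refine ⟨σ, hσ, fun v => hj ?_⟩
    rw [map_mul, map_mul, map_inv, hi', hi']
    exact h1 v
  have hsur : ∀ σ ∈ E₀, ∃ t ∈ Tg i'.range (fun h => B.g (j h)), ∀ v,
      t * i' v * t⁻¹ = i' (σ v) := by
    intro σ hσ
    obtain ⟨t, ht, h1⟩ := hB.sur σ hσ
    obtain ⟨h, rfl⟩ := hXr t (hTX ht)
    refine ⟨h, (hTg h).1 ht, fun v => hj ?_⟩
    rw [map_mul, map_mul, map_inv, hi', hi']
    exact h1 v
  obtain ⟨B', he, hg, hi, hSd⟩ := syd ℓ M hM V₀ H E₀ hFq (fun h => B.b A (j h))
    (fun h => B.g (j h)) i' hi'inj hLH hact hsur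
  have hi2 : ∀ v, j (B'.i v) = B.i v := by
    rw [hi]
    exact hi'
  have hVi3 : ∀ a, a ∈ B'.i.range ↔ j a ∈ B.i.range := by
    rw [hi]
    exact hVi2
  refine ⟨B', hSd, ⟨hj, hi2, fun x hx => hXr x (hCAX hx), fun h => by rw [hg], ?_⟩,
    fun h => by rw [he], ?_, ?_, ?_⟩
  · -- the local blocks
    intro W hAW h
    have hb' := hSd.lb W
    have hlbG := hB.lb W
    have hCWA : B.C W ≤ B.C A := by
      refine Subgroup.centralizer_le ?_
      rintro _ ⟨w, hw, rfl⟩
      exact ⟨w, hAW hw, rfl⟩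
    have hCWX : B.C W ≤ X := hCWA.trans hCAX
    have hmem : ∀ a, a ∈ Subgroup.centralizer ((W.map B'.i : Subgroup H) : Set H) ↔
        j a ∈ B.C W := by
      intro a
      rw [H49.mem_C, Subgroup.mem_centralizer_iff]
      constructor
      · intro h1 w hw
        have h2 := congrArg j (h1 (B'.i w) ⟨w, hw, rfl⟩)
        rw [map_mul, map_mul, hi2] at h2
        exact h2
      · rintro h1 _ ⟨w, hw, rfl⟩
        apply hj
        rw [map_mul, map_mul, hi2]
        exact h1 w hw
    obtain ⟨β, hβdef⟩ : ∃ β, β = H75.ext0 X (fun t : X => B'.b W (φ.symm t)) := ⟨_, rfl⟩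
    have hβX : ∀ x, x ∉ X → β x = 0 := by
      rw [hβdef]
      exact ext0_supp X _
    have hβt : ∀ t : X, β t = B'.b W (φ.symm t) := by
      intro t
      rw [hβdef]
      exact ext0_apply X _ t
    have hβj : ∀ a, β (j a) = B'.b W a := by
      intro a
      have h1 := hβt (φ a)
      rw [φ.symm_apply_apply, hφ] at h1
      exact h1
    have hbx : Bx (B.C W) β := by
      constructor
      · intro x hx
        by_cases hxX : x ∈ X
        · obtain ⟨a, rfl⟩ := hXr x hxX
          rw [hβj]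
          apply hb'.blk.supp
          intro h'
          exact hx ((hmem a).1 h')
        · exact hβX x hxX
      · -- the centraliser in `X`
        have h1 : ∀ t : X, φ.symm t ∈ Subgroup.centralizer ((W.map B'.i : Subgroup H) : Set H) ↔
            (t : G) ∈ B.C W := by
          intro t
          rw [hmem, ← hφ, φ.apply_symm_apply]
        let ψ : B.C W ≃* Subgroup.centralizer ((W.map B'.i : Subgroup H) : Set H) :=
          { toFun := fun t => ⟨φ.symm ⟨t, hCWX t.2⟩, (h1 _).2 t.2⟩
            invFun := fun t => ⟨((φ (t : H) : X) : G), by rw [hφ]; exact (hmem t).1 t.2⟩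
            left_inv := fun t => Subtype.ext (by
              change ((φ (φ.symm ⟨t, hCWX t.2⟩) : X) : G) = t
              rw [φ.apply_symm_apply])
            right_inv := fun t => Subtype.ext (by
              change φ.symm ⟨((φ (t : H) : X) : G), _⟩ = (t : H)
              exact φ.symm_apply_apply (t : H))
            map_mul' := fun a b => Subtype.ext (by
              change φ.symm ⟨((a * b : B.C W) : G), _⟩ =
                φ.symm ⟨(a : G), _⟩ * φ.symm ⟨(b : G), _⟩
              rw [← map_mul]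
              rfl) }
        have h2 : (fun t : B.C W => β t) = fun t : B.C W => B'.b W (ψ t) := by
          funext t
          exact hβt ⟨t, hCWX t.2⟩
        rw [h2]
        exact H20.IsBlk_equiv ψ hb'.blk.blk
    have hgam : mulF (br B.i.range β) B.g = B.g := by
      have hs : ∀ x, x ∉ X → br B.i.range β x = 0 := fun x hx =>
        H66.br_of_not_mem (fun h' => hx (hCX h'))
      have hgs : ∀ x, x ∉ X → B.g x = 0 := fun x hx => hL.gam.supp x (fun h' => hx (hCX h'))
      apply eq_of_res (mulF_supp X hs hgs) hgs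
      rw [mulF_res X _ hs]
      have h0 := hb'.gam
      have hcen : ∀ a, a ∈ Subgroup.centralizer (B'.i.range : Set H) ↔
          j a ∈ Subgroup.centralizer (B.i.range : Set G) := by
        intro a
        rw [Subgroup.mem_centralizer_iff, Subgroup.mem_centralizer_iff]
        constructor
        · rintro h1 _ ⟨v, rfl⟩
          have h2 := congrArg j (h1 (B'.i v) ⟨v, rfl⟩)
          rw [map_mul, map_mul, hi2] at h2
          exact h2
        · rintro h1 _ ⟨v, rfl⟩
          apply hj
          rw [map_mul, map_mul, hi2]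
          exact h1 _ ⟨v, rfl⟩
      have h1 : (fun t : X => br B.i.range β t) =
          fun t : X => br B'.i.range (B'.b W) (φ.symm t) := by
        funext t
        have ht : (t : G) = j (φ.symm t) := by rw [← hφ, φ.apply_symm_apply]
        by_cases htc : (t : G) ∈ Subgroup.centralizer (B.i.range : Set G)
        · have htc' : φ.symm t ∈ Subgroup.centralizer (B'.i.range : Set H) := by
            rw [hcen, ← ht]
            exact htc
          rw [H66.br_of_mem htc, H66.br_of_mem htc', hβt]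
        · have htc' : φ.symm t ∉ Subgroup.centralizer (B'.i.range : Set H) := by
            rw [hcen, ← ht]
            exact htc
          rw [H66.br_of_not_mem htc, H66.br_of_not_mem htc']
      have h2 : (fun t : X => B.g t) = fun t : X => B'.g (φ.symm t) := by
        funext t
        rw [hg]
        change B.g t = B.g (j (φ.symm t))
        rw [← hφ, φ.apply_symm_apply]
      rw [h1, h2, H20.mulF_equiv φ.symm, h0]
    have hVle : B.i.range ≤ B.C W := by
      rintro _ ⟨v, rfl⟩
      exact H49.i_mem B _ v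
    have hfin : β = B.b W :=
      H49.uniq1 hF hL.tp.pg hVle hL.gam.ne hbx hlbG.blk hgam hlbG.gam
    rw [← hfin, hβj]
  · -- the image of the defect group
    ext x
    constructor
    · rintro ⟨a, ha, rfl⟩
      exact (hVi3 a).1 ha
    · intro hx
      obtain ⟨a, rfl⟩ := hXr x (hVX hx)
      exact ⟨a, (hVi3 a).2 hx, rfl⟩
  · intro h
    rw [hg, hi]
    exact hTg h
  · -- `A` is normal
    refine ⟨?_⟩
    rintro _ ⟨v, hv, rfl⟩ h
    have h4 : j h ∈ X := by
      rw [hXdef]
      exact ⟨h, rfl⟩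
    have h1 := (Subgroup.mem_normalizer_iff.1 (hXN h4) (B.i v)).1 ⟨v, hv, rfl⟩
    obtain ⟨w, hw, hw2⟩ := h1
    refine ⟨w, hw, hj ?_⟩
    rw [map_mul, map_mul, map_inv, hi2, hi2]
    exact hw2

end Pool.Agent.PP.SD.H89
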